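import Pool.Agent.helper56.NR.Spec

set_option autoImplicit false

open Complex Metric Set Filter Topology MeasureTheory Pool.Agent.helper98.ILF

open EX (ff)

noncomputable section

namespace NR

theorem BBD (hK1 : V3.KO1_stmt) : BBD_stmt := by
  obtain ⟨C₁, hC₁, hk⟩ := hK1
  intro n c hn hint hc τ hτ
  have hC0 : 0 < C₁ := by linarith
  obtain ⟨m₀, hm₀⟩ := UP.Blow n c hn hint (τ / C₁) (by positivity)
  have hD : ∀ m : ℕ, 0 ≤ 1 / ‖deriv ((ff n c)^[m]) c‖ := fun m => by positivity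
  have hS : 0 ≤ ∑ m ∈ Finset.range m₀, 1 / ‖deriv ((ff n c)^[m]) c‖ :=
    Finset.sum_nonneg fun m _ => hD m
  have hle : ∀ m < m₀, 1 / ‖deriv ((ff n c)^[m]) c‖ ≤
      ∑ m ∈ Finset.range m₀, 1 / ‖deriv ((ff n c)^[m]) c‖ := fun m hm =>
    Finset.single_le_sum (f := fun m => 1 / ‖deriv ((ff n c)^[m]) c‖) (fun i _ => hD i)
      (Finset.mem_range.2 hm)
  generalize (∑ m ∈ Finset.range m₀, 1 / ‖deriv ((ff n c)^[m]) c‖) = S at hS hle
  refine ⟨min 1 (τ / (1 + S)), lt_min one_pos (by positivity), min_le_left _ _,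
    fun m l G hl hlδ hB hG => ?_⟩
  by_cases hm : m₀ ≤ m
  · have h1 := UP.Blow_der C₁ hC₁ hk n c (τ / C₁) m c hc l hl (hlδ.trans (min_le_left _ _))
      (hm₀ m hm c hc) G hB.1 hG hB.2
    have h2 : C₁ * (τ / C₁) = τ := by field_simp
    rw [h2] at h1
    exact h1
  · have h1 : ‖deriv ((ff n c)^[m]) c‖ * ‖deriv G (vv n c m)‖ = 1 :=
      UP.Br_deriv n c m l hl c (vv n c m) G hB.1 hG hB.2
    have h2 : ‖deriv G (vv n c m)‖ = 1 / ‖deriv ((ff n c)^[m]) c‖ := by
      have h3 : ‖deriv ((ff n c)^[m]) c‖ ≠ 0 := by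
        intro h4
        rw [h4, zero_mul] at h1
        exact zero_ne_one h1
      rw [eq_div_iff h3, mul_comm]
      exact h1
    have h3 : ‖deriv G (vv n c m)‖ ≤ S := by
      rw [h2]
      exact hle m (by omega)
    have h4 : l ≤ τ / (1 + S) := hlδ.trans (min_le_right _ _)
    calc l * ‖deriv G (vv n c m)‖ ≤ τ / (1 + S) * (1 + S) :=
          mul_le_mul h4 (by linarith) (norm_nonneg _) (by positivity)
      _ = τ := by field_simp

end NR
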