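import Pool.Agent.helper84.NR.Spec

/-!
# nrv:WLX: the walk along a face at `x`
-/

set_option autoImplicit false

namespace Pool.Agent.helper84.NR

open scoped Classical
open Finset

/-- some face of the class `q` is on the edge `e` -/
def WLX_has {V F : Type} (M : PMap V F) (x y : V) (J : Finset F)
    (q : Quot (lk M (inU M x y J))) (e : Sym2 V) : Prop :=
  ∃ g, OnE M.toCyc g e ∧ Quot.mk _ g = q

theorem WLX_onV {V F : Type} (M : Cyc V F) (f : F) (e : Sym2 V) (v : V) (h : OnE M f e) (hv : v ∈ e) :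
    OnV M f v := by
  obtain ⟨k, rfl⟩ := h
  rcases Sym2.mem_iff.1 hv with h | h
  · exact ⟨k, h.symm⟩
  · exact ⟨k + 1, h.symm⟩

theorem WLX_step (hIDX : IDX_stmt) (hDEG : DEG_stmt) (hPAR : PAR_stmt) (hWW0 : WW0_stmt)
    {V F : Type} [Fintype V] [Fintype F] (M : PMap V F) (x y : V) (J : Finset F)
    (hT : TopH M x y J) (q : Quot (lk M (inU M x y J)))
    (hq : ∀ A, OnV M.toCyc A x → Quot.mk _ A ≠ q) (A : F) (hA : OnV M.toCyc A x) (i : ℕ)
    (h1 : 1 ≤ i) (h2 : i + 1 < M.len A) (hJ : ¬ ∃ B ∈ J, OnV M.toCyc B (ww M x A i)) :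
    WLX_has M x y J q s(ww M x A (i - 1), ww M x A i) ↔
      WLX_has M x y J q s(ww M x A i, ww M x A (i + 1)) := by
  obtain ⟨hinj, -, he, -, hper⟩ := hIDX V F M.toCyc A (st M x A)
  have hu0 : ww M x A 0 = x := (hWW0 V F M x A hA).1
  have hui : ww M x A i ≠ x := by
    intro h
    have := hinj i 0 (by omega) (by omega) (h.trans hu0.symm)
    omega
  have hnadj : ¬ Adj M.toCyc x (ww M x A i) := fun h => hJ (hT.js _ h)
  have hAu : OnV M.toCyc A (ww M x A i) := ⟨_, rfl⟩
  have hE1 : OnE M.toCyc A s(ww M x A (i - 1), ww M x A i) := by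
    refine ⟨st M x A + (i - 1), ?_⟩
    unfold ww
    rw [show st M x A + (i - 1) + 1 = st M x A + i by omega]
  have hE2 : OnE M.toCyc A s(ww M x A i, ww M x A (i + 1)) := ⟨st M x A + i, rfl⟩
  have hpar := hPAR V F M {f | Quot.mk (lk M (inU M x y J)) f = q} (ww M x A i)
  have hmem : ∀ e : Sym2 V, e ∈ univ.filter (fun e : Sym2 V => ww M x A i ∈ e ∧
      (∃ f, OnE M.toCyc f e ∧ f ∈ {f | Quot.mk (lk M (inU M x y J)) f = q}) ∧
      ∃ g, OnE M.toCyc g e ∧ g ∉ {f | Quot.mk (lk M (inU M x y J)) f = q}) ↔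
      (e = s(ww M x A (i - 1), ww M x A i) ∨ e = s(ww M x A i, ww M x A (i + 1))) ∧
        WLX_has M x y J q e := by
    intro e
    simp only [Finset.mem_filter, Finset.mem_univ, true_and, Set.mem_ofPred_eq]
    constructor
    · rintro ⟨hv, ⟨f, hf, hfS⟩, g, hg, hgS⟩
      refine ⟨?_, f, hf, hfS⟩
      have hU : inU M x y J e := by
        by_contra hnU
        exact hgS ((Quot.sound ⟨e, hnU, hf, hg⟩ : Quot.mk (lk M (inU M x y J)) f = Quot.mk _ g).symm.trans hfS)
      rcases hU with ⟨_, A', hA'x, hA'e⟩ | ⟨B, hB, k, _, hk⟩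
      · have hA'v := WLX_onV M.toCyc A' e _ hA'e hv
        have hAA : A' = A := (hDEG V F M x).1 (ww M x A i) A' A hui hnadj hA'x hA'v hA hAu
        subst hAA
        obtain ⟨a, ha, hea⟩ := he e hA'e
        rw [hea] at hv
        rcases Sym2.mem_iff.1 hv with h | h
        · have : i = a := hinj i a (by omega) ha h
          subst this
          exact Or.inr hea
        · rcases Nat.lt_or_ge (a + 1) (M.len A') with h3 | h3
          · have h4 : i = a + 1 := hinj i (a + 1) (by omega) h3 h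
            subst h4
            exact Or.inl hea
          · exfalso
            have h4 : a + 1 = M.len A' := by omega
            have h5 : ww M x A' i = ww M x A' 0 := by
              rw [h]
              show M.bd A' (st M x A' + (a + 1)) = M.bd A' (st M x A' + 0)
              rw [h4]
              exact hper
            have := hinj i 0 (by omega) (by omega) h5
            omega
      · exfalso
        rw [hk] at hv
        apply hJ
        rcases Sym2.mem_iff.1 hv with h | h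
        · exact ⟨B, hB, _, h.symm⟩
        · exact ⟨B, hB, _, h.symm⟩
    · rintro ⟨h | h, hh⟩
      · subst h
        obtain ⟨g, hg, hgq⟩ := hh
        exact ⟨Sym2.mem_mk_right _ _, ⟨g, hg, hgq⟩, A, hE1, hq A hA⟩
      · subst h
        obtain ⟨g, hg, hgq⟩ := hh
        exact ⟨Sym2.mem_mk_left _ _, ⟨g, hg, hgq⟩, A, hE2, hq A hA⟩
  by_contra hcon
  have key : ∀ e : Sym2 V, (∀ e', e' ∈ univ.filter (fun e : Sym2 V => ww M x A i ∈ e ∧
      (∃ f, OnE M.toCyc f e ∧ f ∈ {f | Quot.mk (lk M (inU M x y J)) f = q}) ∧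
      ∃ g, OnE M.toCyc g e ∧ g ∉ {f | Quot.mk (lk M (inU M x y J)) f = q}) ↔ e' = e) → False := by
    intro e h
    have h3 : univ.filter (fun e : Sym2 V => ww M x A i ∈ e ∧
      (∃ f, OnE M.toCyc f e ∧ f ∈ {f | Quot.mk (lk M (inU M x y J)) f = q}) ∧
      ∃ g, OnE M.toCyc g e ∧ g ∉ {f | Quot.mk (lk M (inU M x y J)) f = q}) = {e} := by
      ext e'
      rw [h e', Finset.mem_singleton]
    rw [h3, Finset.card_singleton] at hpar
    exact (by decide : ¬ Even 1) hpar
  by_cases c1 : WLX_has M x y J q s(ww M x A (i - 1), ww M x A i)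
  · by_cases c2 : WLX_has M x y J q s(ww M x A i, ww M x A (i + 1))
    · exact hcon ⟨fun _ => c2, fun _ => c1⟩
    · apply key s(ww M x A (i - 1), ww M x A i)
      intro e'
      rw [hmem e']
      constructor
      · rintro ⟨h | h, h'⟩
        · exact h
        · exact absurd (h ▸ h') c2
      · intro h
        exact ⟨Or.inl h, h.symm ▸ c1⟩
  · by_cases c2 : WLX_has M x y J q s(ww M x A i, ww M x A (i + 1))
    · apply key s(ww M x A i, ww M x A (i + 1))
      intro e'
      rw [hmem e']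
      constructor
      · rintro ⟨h | h, h'⟩
        · exact absurd (h ▸ h') c1
        · exact h
      · intro h
        exact ⟨Or.inr h, h.symm ▸ c2⟩
    · exact hcon ⟨fun h => absurd h c1, fun h => absurd h c2⟩

theorem WLX (hIDX : IDX_stmt) (hDEG : DEG_stmt) (hPAR : PAR_stmt) (hWW0 : WW0_stmt) : WLX_stmt := by
  intro V F _ _ M x y J hT q hq A hA i hi1 hi2 hg
  obtain ⟨-, -, -, -, hper⟩ := hIDX V F M.toCyc A (st M x A)
  have hu0 : ww M x A 0 = x := (hWW0 V F M x A hA).1
  have hul : ww M x A (M.len A) = x := (hWW0 V F M x A hA).2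
  have h3 := M.three A
  have hJ1 : ∃ B ∈ J, OnV M.toCyc B (ww M x A 1) := by
    apply hT.js
    refine ⟨A, st M x A, ?_⟩
    have h4 : M.bd A (st M x A) = x := hu0
    rw [h4]
    rfl
  have hJl : ∃ B ∈ J, OnV M.toCyc B (ww M x A (M.len A - 1)) := by
    apply hT.js
    refine ⟨A, st M x A + (M.len A - 1), ?_⟩
    rw [Sym2.eq_swap]
    have h4 : M.bd A (st M x A + (M.len A - 1) + 1) = x := by
      rw [show st M x A + (M.len A - 1) + 1 = st M x A + M.len A by omega]
      exact hul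
    rw [h4]
    rfl
  have step := fun (j : ℕ) (h1 : 1 ≤ j) (h2 : j + 1 < M.len A)
    (h : ¬ ∃ B ∈ J, OnV M.toCyc B (ww M x A j)) =>
    WLX_step hIDX hDEG hPAR hWW0 M x y J hT q hq A hA j h1 h2 h
  have down : ∀ j, 1 ≤ j → j + 1 < M.len A →
      WLX_has M x y J q s(ww M x A j, ww M x A (j + 1)) →
      ∃ i1, 1 ≤ i1 ∧ i1 ≤ j ∧ (∃ B ∈ J, OnV M.toCyc B (ww M x A i1)) ∧
        WLX_has M x y J q s(ww M x A i1, ww M x A (i1 + 1)) := by
    intro j
    induction j with
    | zero => intro h; omega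
    | succ j ih =>
      intro h1 h2 h
      by_cases hj : ∃ B ∈ J, OnV M.toCyc B (ww M x A (j + 1))
      · exact ⟨j + 1, h1, le_refl _, hj, h⟩
      · rcases Nat.eq_zero_or_pos j with h0 | h0
        · subst h0
          exact absurd hJ1 hj
        · have h5 := (step (j + 1) h1 h2 hj).2 h
          rw [Nat.add_sub_cancel] at h5
          obtain ⟨i1, a1, a2, a3, a4⟩ := ih h0 (by omega) h5
          exact ⟨i1, a1, by omega, a3, a4⟩
  have up : ∀ m j, M.len A - j ≤ m → 1 ≤ j → j + 1 < M.len A →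
      WLX_has M x y J q s(ww M x A j, ww M x A (j + 1)) →
      ∃ i2, j + 1 ≤ i2 ∧ i2 < M.len A ∧ (∃ B ∈ J, OnV M.toCyc B (ww M x A i2)) ∧
        WLX_has M x y J q s(ww M x A (i2 - 1), ww M x A i2) := by
    intro m
    induction m with
    | zero => intro j hm h1 h2; omega
    | succ m ih =>
      intro j hm h1 h2 h
      by_cases hj : ∃ B ∈ J, OnV M.toCyc B (ww M x A (j + 1))
      · exact ⟨j + 1, le_refl _, h2, hj, by rw [Nat.add_sub_cancel]; exact h⟩
      · rcases Nat.lt_or_ge (j + 2) (M.len A) with h0 | h0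
        · have h5 := (step (j + 1) (by omega) h0 hj).1 (by rw [Nat.add_sub_cancel]; exact h)
          obtain ⟨i2, a1, a2, a3, a4⟩ := ih (j + 1) (by omega) (by omega) h0 h5
          exact ⟨i2, by omega, a2, a3, a4⟩
        · have h6 : j + 1 = M.len A - 1 := by omega
          rw [h6] at hj
          exact absurd hJl hj
  obtain ⟨i1, a1, a2, a3, a4⟩ := down i hi1 hi2 hg
  obtain ⟨i2, b1, b2, b3, b4⟩ := up _ i (le_refl _) hi1 hi2 hg
  exact ⟨i1, i2, a1, a2, b1, b2, a3, b3, a4, b4⟩

end Pool.Agent.helper84.NR
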